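import Pool.Agent.Run7.h408.EF.Stm

set_option autoImplicit false

/-!
# Project EF, piece StHb (helper579): the derivative of a Lipschitz family of metrics is bounded
-/

namespace Run7.h579.EF

open Pool.Agent.Run7.h408.EF

theorem t_StHb : StHb := by
  intro K hK n c hn hLip hder
  have hN : 0 ≤ n 0 ^ 2 := sq_nonneg _
  -- the key bound for every ε
  have key : ∀ ε : ℝ, 0 < ε → |c| ≤ (2 * K + 2 * ε) * n 0 ^ 2 := by
    intro ε hε
    obtain ⟨δ, hδ, hd⟩ := hder ε hε
    have h4 : (0 : ℝ) < 4 * K ^ 2 + 1 := by positivity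
    set τ : ℝ := min (δ / 2) (min (ε / (4 * K ^ 2 + 1)) (1 / (2 * K + 1))) with hτ
    have hτ0 : 0 < τ := by
      rw [hτ]
      refine lt_min (by positivity) (lt_min (by positivity) (by positivity))
    have hτδ : |τ| < δ := by
      rw [abs_of_pos hτ0]
      exact lt_of_le_of_lt (min_le_left _ _) (by linarith)
    have hτε : τ * (4 * K ^ 2 + 1) ≤ ε := by
      have : τ ≤ ε / (4 * K ^ 2 + 1) := (min_le_right _ _).trans (min_le_left _ _)
      rwa [le_div_iff₀ h4] at this
    have hτ1 : τ * (2 * K + 1) ≤ 1 := by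
      have : τ ≤ 1 / (2 * K + 1) := (min_le_right _ _).trans (min_le_right _ _)
      rwa [le_div_iff₀ (by positivity)] at this
    have h1 := hd τ hτδ
    rw [abs_of_pos hτ0] at h1
    have hx0 : 0 ≤ 2 * K * τ := by positivity
    have hx1 : 2 * K * τ ≤ 1 := by nlinarith
    have hexp : Real.exp (2 * K * τ) - 1 ≤ 2 * K * τ + (2 * K * τ) ^ 2 := by
      have := Real.abs_exp_sub_one_sub_id_le (x := 2 * K * τ) (by rw [abs_of_nonneg hx0]; exact hx1)
      have := (abs_le.1 this).2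
      linarith
    have hE : (1 : ℝ) ≤ Real.exp (2 * K * τ) := Real.one_le_exp hx0
    have hsq : Real.exp (K * τ) ^ 2 = Real.exp (2 * K * τ) := by
      rw [← Real.exp_nat_mul]; congr 1; push_cast; ring
    have hup : n τ ^ 2 ≤ Real.exp (2 * K * τ) * n 0 ^ 2 := by
      have h := hLip τ 0
      rw [sub_zero, abs_of_pos hτ0] at h
      calc n τ ^ 2 ≤ (Real.exp (K * τ) * n 0) ^ 2 := pow_le_pow_left₀ (hn τ) h 2
        _ = Real.exp (2 * K * τ) * n 0 ^ 2 := by rw [mul_pow, hsq]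
    have hlo : n 0 ^ 2 ≤ Real.exp (2 * K * τ) * n τ ^ 2 := by
      have h := hLip 0 τ
      rw [zero_sub, abs_neg, abs_of_pos hτ0] at h
      calc n 0 ^ 2 ≤ (Real.exp (K * τ) * n τ) ^ 2 := pow_le_pow_left₀ (hn 0) h 2
        _ = Real.exp (2 * K * τ) * n τ ^ 2 := by rw [mul_pow, hsq]
    have hdiff : |n τ ^ 2 - n 0 ^ 2| ≤ (Real.exp (2 * K * τ) - 1) * n 0 ^ 2 := by
      rw [abs_le]
      constructor
      · have h5 : n 0 ^ 2 - n τ ^ 2 ≤ (Real.exp (2 * K * τ) - 1) * n 0 ^ 2 := by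
          by_contra hcon
          push Not at hcon
          -- n 0 ^ 2 ≤ E * n τ ^ 2, n τ ^ 2 < n 0 ^ 2 - (E - 1) n 0 ^ 2
          have h6 : n τ ^ 2 < (2 - Real.exp (2 * K * τ)) * n 0 ^ 2 := by nlinarith
          have h7 : n 0 ^ 2 ≤ Real.exp (2 * K * τ) * ((2 - Real.exp (2 * K * τ)) * n 0 ^ 2) :=
            hlo.trans (mul_le_mul_of_nonneg_left h6.le (by positivity))
          have h8 : 0 < n 0 ^ 2 := by
            rcases hN.lt_or_eq with h | h
            · exact h
            · rw [← h] at hcon hlo hup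
              have : n τ ^ 2 = 0 := le_antisymm (by linarith) (sq_nonneg _)
              rw [this] at hcon
              simp at hcon
          have h9 : Real.exp (2 * K * τ) * (2 - Real.exp (2 * K * τ)) ≤ 1 := by
            nlinarith [sq_nonneg (Real.exp (2 * K * τ) - 1)]
          have h10 : Real.exp (2 * K * τ) < 2 := by
            by_contra h; push Not at h
            have : (2 - Real.exp (2 * K * τ)) * n 0 ^ 2 ≤ 0 :=
              mul_nonpos_of_nonpos_of_nonneg (by linarith) hN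
            linarith [sq_nonneg (n τ)]
          have h11 : Real.exp (2 * K * τ) * n τ ^ 2 <
              Real.exp (2 * K * τ) * ((2 - Real.exp (2 * K * τ)) * n 0 ^ 2) :=
            mul_lt_mul_of_pos_left h6 (by positivity)
          have h12 : Real.exp (2 * K * τ) * ((2 - Real.exp (2 * K * τ)) * n 0 ^ 2) ≤ n 0 ^ 2 := by
            nlinarith
          linarith
        linarith
      · linarith
    have h13 : |τ * c| ≤ ε * τ * n 0 ^ 2 + (Real.exp (2 * K * τ) - 1) * n 0 ^ 2 := by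
      have : τ * c = (n τ ^ 2 - n 0 ^ 2) - (n τ ^ 2 - n 0 ^ 2 - τ * c) := by ring
      rw [this]
      calc |(n τ ^ 2 - n 0 ^ 2) - (n τ ^ 2 - n 0 ^ 2 - τ * c)|
          ≤ |n τ ^ 2 - n 0 ^ 2| + |n τ ^ 2 - n 0 ^ 2 - τ * c| := abs_sub _ _
        _ ≤ _ := by linarith
    rw [abs_mul, abs_of_pos hτ0] at h13
    have h14 : τ * |c| ≤ τ * ((2 * K + 2 * ε) * n 0 ^ 2) := by
      have h15 : (Real.exp (2 * K * τ) - 1) * n 0 ^ 2 ≤ τ * ((2 * K + ε) * n 0 ^ 2) := by
        have h16 : Real.exp (2 * K * τ) - 1 ≤ τ * (2 * K + ε) := by nlinarith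
        nlinarith
      nlinarith
    exact le_of_mul_le_mul_left h14 hτ0
  -- the limit
  refine le_of_forall_pos_le_add fun η hη => ?_
  have h := key (η / (2 * (n 0 ^ 2 + 1))) (by positivity)
  refine h.trans ?_
  have h2 : 2 * (η / (2 * (n 0 ^ 2 + 1))) * n 0 ^ 2 ≤ η := by
    rw [show 2 * (η / (2 * (n 0 ^ 2 + 1))) * n 0 ^ 2 = η * (n 0 ^ 2 / (n 0 ^ 2 + 1)) by
      field_simp]
    have : n 0 ^ 2 / (n 0 ^ 2 + 1) ≤ 1 := by
      rw [div_le_one (by positivity)]; linarith
    nlinarith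
  linarith

end Run7.h579.EF
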